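import Mathlib
import Pool.Agent.H646R2.NT.Defs
import Pool.Agent.H646R2.NT.Acc

/-!
# The words of even length are accepted in linear time
-/

set_option autoImplicit false

namespace Pool.Agent.H231R3.Sub

open Pool.Agent.H646R2.NT

/-- The state after reading `j` letters. -/
def est (j : ℕ) : ℕ := if j % 2 = 0 then 0 else 2

/-- The instructions. -/
def einstr (s : ℕ) : List Instr :=
  (0, [0], 1, [(0, 0)]) :: ((List.range (s + 1)).map fun a => (0, [a + 1], 2, [(0, 2)])) ++
    ((List.range (s + 1)).map fun a => (2, [a + 1], 0, [(0, 2)]))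

theorem mem_einstr {s : ℕ} {i : Instr} : i ∈ einstr s ↔ i = (0, [0], 1, [(0, 0)]) ∨
    (∃ a < s + 1, i = (0, [a + 1], 2, [(0, 2)])) ∨ (∃ a < s + 1, i = (2, [a + 1], 0, [(0, 2)])) := by
  unfold einstr
  simp only [List.cons_append, List.mem_cons, List.mem_append, List.mem_map, List.mem_range]
  refine or_congr Iff.rfl (or_congr ?_ ?_)
  · exact ⟨fun ⟨a, h, h'⟩ => ⟨a, h, h'.symm⟩, fun ⟨a, h, h'⟩ => ⟨a, h, h'.symm⟩⟩
  · exact ⟨fun ⟨a, h, h'⟩ => ⟨a, h, h'.symm⟩, fun ⟨a, h, h'⟩ => ⟨a, h, h'.symm⟩⟩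

/-- The machine. -/
def emach (s : ℕ) : Mach := (1, einstr s)

theorem emach_wf (s : ℕ) : WF (emach s) := by
  refine ⟨le_rfl, fun i hi => ?_⟩
  rcases mem_einstr.1 hi with rfl | ⟨a, -, rfl⟩ | ⟨a, -, rfl⟩ <;> exact ⟨rfl, rfl⟩

theorem emach_det (s : ℕ) : Det (emach s) := by
  intro i hi j hj h1 h2
  rcases mem_einstr.1 hi with rfl | ⟨a, -, rfl⟩ | ⟨a, -, rfl⟩ <;>
    rcases mem_einstr.1 hj with rfl | ⟨b, -, rfl⟩ | ⟨b, -, rfl⟩ <;> simp_all

/-- The configuration after reading `j` letters. -/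
def econf {s : ℕ} (w : W s) (j : ℕ) : Cfg :=
  (est j, [(List.replicate j 0, (w.drop j).map fun a => a.val + 1)])

theorem einit_eq {s : ℕ} (w : W s) : init (emach s) w = econf w 0 := by
  simp [init, econf, emach, est]

theorem erd_conf {s : ℕ} (w : W s) (j : ℕ) :
    (econf w j).2.map rd = [((w.drop j).map fun a => a.val + 1).headD 0] := rfl

theorem eheadD_of_lt {s : ℕ} (w : W s) {j : ℕ} (hj : j < w.length) :
    ((w.drop j).map fun a => a.val + 1).headD 0 = (w[j]).val + 1 := by
  rw [List.drop_eq_getElem_cons hj]; rfl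

theorem eheadD_of_le {s : ℕ} (w : W s) {j : ℕ} (hj : w.length ≤ j) :
    ((w.drop j).map fun a => a.val + 1).headD 0 = 0 := by
  rw [List.drop_eq_nil_of_le hj]; rfl

theorem eact_conf {s : ℕ} (w : W s) (j : ℕ) :
    List.zipWith act [(0, 2)] (econf w j).2 = (econf w (j + 1)).2 := by
  have h : (w.drop j).tail = w.drop (j + 1) := by simp
  simp only [econf, List.zipWith_cons_cons, List.zipWith_nil_left]
  congr 1
  unfold act
  simp only [OfNat.ofNat_ne_zero, if_false, show (2 : ℕ) ≠ 1 by decide, if_false]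
  rw [← List.map_tail, h]
  rfl

theorem estep_shift {s : ℕ} (w : W s) {j : ℕ} (hj : j < w.length) :
    Step (emach s) (econf w j) (econf w (j + 1)) := by
  have hlt := (w[j]).isLt
  by_cases hp : j % 2 = 0
  · refine ⟨(0, [(w[j]).val + 1], 2, [(0, 2)]), mem_einstr.2 (Or.inr (Or.inl ⟨_, hlt, rfl⟩)),
      ?_, ?_, ?_⟩
    · simp [econf, est, hp]
    · rw [erd_conf, eheadD_of_lt w hj]
    · rw [eact_conf w j]
      have : (econf w (j + 1)).1 = 2 := by simp [econf, est]; omega
      rw [← this]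
  · refine ⟨(2, [(w[j]).val + 1], 0, [(0, 2)]), mem_einstr.2 (Or.inr (Or.inr ⟨_, hlt, rfl⟩)),
      ?_, ?_, ?_⟩
    · simp [econf, est, hp]
    · rw [erd_conf, eheadD_of_lt w hj]
    · rw [eact_conf w j]
      have : (econf w (j + 1)).1 = 0 := by simp [econf, est]; omega
      rw [← this]

theorem ereach_conf {s : ℕ} (w : W s) {j : ℕ} (hj : j ≤ w.length) :
    Reach (emach s) j (init (emach s) w) (econf w j) := by
  induction j with
  | zero => exact einit_eq w
  | succ j ih => exact ⟨econf w j, ih (by omega), estep_shift w (by omega)⟩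

theorem einv_step {s : ℕ} (w : W s) {c d : Cfg} (hs : Step (emach s) c d)
    (hc : (c.1 = 1 ∧ w.length % 2 = 0) ∨ ∃ j, j ≤ w.length ∧ c = econf w j) :
    (d.1 = 1 ∧ w.length % 2 = 0) ∨ ∃ j, j ≤ w.length ∧ d = econf w j := by
  obtain ⟨i, hi, h1, h2, h3⟩ := hs
  rcases hc with ⟨hc, -⟩ | ⟨j, hjw, rfl⟩
  · rcases mem_einstr.1 hi with rfl | ⟨a, -, rfl⟩ | ⟨a, -, rfl⟩ <;> simp_all
  · rw [erd_conf] at h2
    by_cases hj : j < w.length
    · rw [eheadD_of_lt w hj] at h2
      right
      refine ⟨j + 1, by omega, ?_⟩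
      rcases mem_einstr.1 hi with rfl | ⟨a, -, rfl⟩ | ⟨a, -, rfl⟩
      · simp at h2
      · rw [h3, eact_conf w j]
        have h4 : j % 2 = 0 := by
          by_contra hp
          simp [econf, est, hp] at h1
        have : (econf w (j + 1)).1 = 2 := by simp [econf, est]; omega
        rw [← this]
      · rw [h3, eact_conf w j]
        have h4 : ¬ j % 2 = 0 := by
          intro hp
          simp [econf, est, hp] at h1
        have : (econf w (j + 1)).1 = 0 := by simp [econf, est]; omega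
        rw [← this]
    · rw [eheadD_of_le w (by omega)] at h2
      rcases mem_einstr.1 hi with rfl | ⟨a, -, rfl⟩ | ⟨a, -, rfl⟩
      · left
        have h4 : j % 2 = 0 := by
          by_contra hp
          simp [econf, est, hp] at h1
        have h5 : w.length = j := by omega
        exact ⟨by rw [h3], by rw [h5]; exact h4⟩
      · simp at h2
      · simp at h2

theorem einv_reach {s : ℕ} (w : W s) {m : ℕ} :
    ∀ {d : Cfg}, Reach (emach s) m (init (emach s) w) d →
    (d.1 = 1 ∧ w.length % 2 = 0) ∨ ∃ j, j ≤ w.length ∧ d = econf w j := by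
  induction m with
  | zero =>
    intro d hd
    have hd' : init (emach s) w = d := hd
    right
    exact ⟨0, by omega, by rw [← hd', einit_eq]⟩
  | succ m ih =>
    intro d hd
    obtain ⟨c, hc, hs⟩ := hd
    exact einv_step w hs (ih hc)

theorem even_mem (s : ℕ) : {w : W s | w.length ∈ {n : ℕ | n % 2 = 0}} ∈ DTIME s id := by
  have key : ∀ w : W s, w.length % 2 = 0 → Acc (emach s) w (w.length + 1) := by
    intro w hw
    refine ⟨w.length + 1, le_rfl, (1, List.zipWith act [(0, 0)] (econf w w.length).2),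
      ⟨_, ereach_conf w le_rfl, (0, [0], 1, [(0, 0)]), mem_einstr.2 (Or.inl rfl), ?_, ?_, rfl⟩, rfl⟩
    · simp [econf, est, hw]
    · rw [erd_conf, eheadD_of_le w le_rfl]
  refine ⟨emach s, Polynomial.X + 1, emach_wf s, emach_det s, ?_, ?_⟩
  · intro w
    constructor
    · intro hw
      exact ⟨_, key w hw⟩
    · rintro ⟨n, m, -, d, hd, hd1⟩
      rcases einv_reach w hd with h | ⟨j, -, rfl⟩
      · exact h.2
      · exfalso
        simp only [econf, est] at hd1
        split_ifs at hd1
        omega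
  · intro w hw
    simp only [id, Polynomial.eval_add, Polynomial.eval_X, Polynomial.eval_one]
    exact key w hw

end Pool.Agent.H231R3.Sub
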