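import Mathlib
import Pool.Agent.H646R2.NT.Defs

/-!
# Turing machines only see a prefix of the input
-/

set_option autoImplicit false

namespace Pool.Agent.H231R3.Sub

open Pool.Agent.H646R2.NT

/-- Two configurations agree up to `k` cells to the right of the head of the first tape. -/
def Agr (k : ℕ) (c d : Cfg) : Prop :=
  c.1 = d.1 ∧ ∃ (T T' : Tape) (r : List Tape), c.2 = T :: r ∧ d.2 = T' :: r ∧ T.1 = T'.1 ∧
    ∀ i < k, T.2.getD i 0 = T'.2.getD i 0

theorem agr_mono {k k' : ℕ} (h : k' ≤ k) {c d : Cfg} (hc : Agr k c d) : Agr k' c d := by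
  obtain ⟨h1, T, T', r, h2, h3, h4, h5⟩ := hc
  exact ⟨h1, T, T', r, h2, h3, h4, fun i hi => h5 i (by omega)⟩

theorem rd_eq (T : Tape) : rd T = T.2.getD 0 0 := by
  obtain ⟨l, r⟩ := T
  cases r <;> rfl

theorem tail_getD (l : List ℕ) (i : ℕ) : l.tail.getD i 0 = l.getD (i + 1) 0 := by
  cases l <;> simp

theorem act_agr {k : ℕ} {T T' : Tape} (a : ℕ × ℕ) (h1 : T.1 = T'.1)
    (h2 : ∀ i < k + 1, T.2.getD i 0 = T'.2.getD i 0) :
    (act a T).1 = (act a T').1 ∧ ∀ i < k, (act a T).2.getD i 0 = (act a T').2.getD i 0 := by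
  unfold act
  split_ifs with ha hb
  · refine ⟨h1, ?_⟩
    intro i hi
    cases i with
    | zero => rfl
    | succ i =>
      simp only [List.getD_cons_succ]
      rw [tail_getD, tail_getD]
      exact h2 _ (by omega)
  · refine ⟨by simp only [h1], ?_⟩
    intro i hi
    match i with
    | 0 => simp only [h1]; rfl
    | 1 => rfl
    | i + 2 =>
      simp only [List.getD_cons_succ]
      rw [tail_getD, tail_getD]
      exact h2 _ (by omega)
  · refine ⟨by simp only [h1], ?_⟩
    intro i hi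
    change T.2.tail.getD i 0 = T'.2.tail.getD i 0
    rw [tail_getD, tail_getD]
    exact h2 _ (by omega)

theorem step_agr {M : Mach} (hM : WF M) {k : ℕ} {c d c' : Cfg} (h : Agr (k + 1) c d)
    (hs : Step M c c') : ∃ d', Step M d d' ∧ Agr k c' d' := by
  obtain ⟨h1, T, T', r, h2, h3, h4, h5⟩ := h
  obtain ⟨i, hi, hi1, hi2, hi3⟩ := hs
  have hlen := (hM.2 i hi).2
  obtain ⟨y0, ys, hy⟩ : ∃ y0 ys, i.2.2.2 = y0 :: ys := by
    cases hy : i.2.2.2 with
    | nil =>
      rw [hy] at hlen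
      have := hM.1
      simp at hlen
      omega
    | cons y0 ys => exact ⟨y0, ys, rfl⟩
  refine ⟨(i.2.2.1, List.zipWith act i.2.2.2 d.2), ⟨i, hi, by rw [hi1, h1], ?_, rfl⟩, ?_⟩
  · rw [hi2, h2, h3]
    simp only [List.map_cons]
    rw [rd_eq, rd_eq, h5 0 (by omega)]
  · obtain ⟨ha, hb⟩ := act_agr y0 h4 h5
    refine ⟨by rw [hi3], act y0 T, act y0 T', List.zipWith act ys r, ?_, ?_, ha, hb⟩
    · rw [hi3, hy, h2]; rfl
    · rw [hy, h3]; rfl

theorem reach_agr {M : Mach} (hM : WF M) {m : ℕ} : ∀ {k : ℕ} {c d c' : Cfg},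
    Agr (m + k) c d → Reach M m c c' → ∃ d', Reach M m d d' ∧ Agr k c' d' := by
  induction m with
  | zero =>
    intro k c d c' h hr
    have : c = c' := hr
    subst this
    exact ⟨d, rfl, by simpa using h⟩
  | succ m ih =>
    intro k c d c' h hr
    obtain ⟨e, he, hs⟩ := hr
    obtain ⟨e', he', hag⟩ := ih (k := k + 1) (by rwa [show m + (k + 1) = m + 1 + k by omega]) he
    obtain ⟨d', hd', hag'⟩ := step_agr hM hag hs
    exact ⟨d', ⟨e', he', hd'⟩, hag'⟩

theorem init_agr {s : ℕ} (M : Mach) {w w' : W s} {m : ℕ} (h : w.take m = w'.take m) :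
    Agr m (init M w) (init M w') := by
  refine ⟨rfl, _, _, _, rfl, rfl, rfl, ?_⟩
  intro i hi
  have h1 : w[i]? = w'[i]? := by
    rw [← List.getElem?_take_of_lt (l := w) hi, ← List.getElem?_take_of_lt (l := w') hi, h]
  simp only [List.getD_eq_getElem?_getD, List.getElem?_map, h1]

/-- Acceptance in `n` steps only depends on the first `n` letters of the input. -/
theorem acc_local {s : ℕ} {M : Mach} (hM : WF M) {w w' : W s} {n : ℕ} (h : Acc M w n)
    (hw : w.take n = w'.take n) : Acc M w' n := by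
  obtain ⟨m, hm, d, hr, hd⟩ := h
  have h1 : Agr (m + 0) (init M w) (init M w') := agr_mono (by omega) (init_agr M hw)
  obtain ⟨d', hr', hag⟩ := reach_agr hM h1 hr
  exact ⟨m, hm, d', hr', by rw [← hag.1, hd]⟩

end Pool.Agent.H231R3.Sub
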