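import Mathlib
import Pool.Agent.H646R2.NT.Defs
import Pool.Agent.H646R2.NT.Acc

/-!
# Languages determined by a bounded prefix are accepted in constant time
-/

set_option autoImplicit false

namespace Pool.Agent.H231R3.Sub

open Pool.Agent.H646R2.NT

/-- The languages for which membership of a word only depends on its prefix of some fixed
length. -/
def PrefixDet (s : ℕ) : Set (Set (W s)) := {L | ∃ k, ∀ w, w ∈ L ↔ w.take k ∈ L}

open Classical in
/-- The state for the prefix `u`. -/
noncomputable def code {s : ℕ} (u : W s) : ℕ := if u = [] then 0 else 2 + Encodable.encode u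

theorem code_ne_one {s : ℕ} (u : W s) : code u ≠ 1 := by
  unfold code; split_ifs <;> omega

theorem code_inj {s : ℕ} {u v : W s} (h : code u = code v) : u = v := by
  unfold code at h
  split_ifs at h with h1 h2 h2
  · rw [h1, h2]
  · omega
  · omega
  · exact Encodable.encode_injective (by omega)

open Classical in
/-- The transition for the prefix `u` and the symbol `x`. -/
noncomputable def next {s : ℕ} (L : Set (W s)) (k : ℕ) (u : W s) (x : ℕ) :
    Option (ℕ × (ℕ × ℕ)) :=
  if h : u.length < k ∧ 1 ≤ x ∧ x ≤ s + 1 then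
    some (code (u ++ [⟨x - 1, by omega⟩]), (0, 2))
  else if u ∈ L then some (1, (0, 0)) else none

/-- The set of the instructions of the machine. -/
def instrs {s : ℕ} (L : Set (W s)) (k : ℕ) : Set Instr :=
  {i | ∃ (u : W s) (x : ℕ) (q : ℕ) (a : ℕ × ℕ), u.length ≤ k ∧ x ≤ s + 1 ∧
    next L k u x = some (q, a) ∧ i = (code u, [x], q, [a])}

theorem instrs_finite {s : ℕ} (L : Set (W s)) (k : ℕ) : (instrs L k).Finite := by
  have h1 : ({u : W s | u.length ≤ k} ×ˢ Set.Iic (s + 1)).Finite :=
    (List.finite_length_le (Fin (s + 1)) k).prod (Set.finite_Iic _)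
  refine (h1.image fun p => (code p.1, [p.2], ((next L k p.1 p.2).getD (0, (0, 0))).1,
    [((next L k p.1 p.2).getD (0, (0, 0))).2])).subset ?_
  rintro i ⟨u, x, q, a, hu, hx, hn, rfl⟩
  exact ⟨(u, x), ⟨hu, hx⟩, by simp [hn]⟩

/-- The machine. -/
noncomputable def mach {s : ℕ} (L : Set (W s)) (k : ℕ) : Mach :=
  (1, (instrs_finite L k).toFinset.toList)

theorem mem_mach {s : ℕ} {L : Set (W s)} {k : ℕ} {i : Instr} :
    i ∈ (mach L k).2 ↔ i ∈ instrs L k := by
  simp [mach]

theorem mach_wf {s : ℕ} (L : Set (W s)) (k : ℕ) : WF (mach L k) := by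
  refine ⟨le_rfl, fun i hi => ?_⟩
  rw [mem_mach] at hi
  obtain ⟨u, x, q, a, hu, hx, hn, rfl⟩ := hi
  exact ⟨rfl, rfl⟩

theorem mach_det {s : ℕ} (L : Set (W s)) (k : ℕ) : Det (mach L k) := by
  intro i hi j hj h1 h2
  rw [mem_mach] at hi hj
  obtain ⟨u, x, q, a, hu, hx, hn, rfl⟩ := hi
  obtain ⟨u', x', q', a', hu', hx', hn', rfl⟩ := hj
  have e1 : u = u' := code_inj h1
  have e2 : x = x' := by simpa using h2
  subst e1 e2
  rw [hn] at hn'
  have := Option.some.inj hn'
  obtain ⟨rfl, rfl⟩ := Prod.mk.inj this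
  rfl

/-- The configuration after reading `j` letters. -/
noncomputable def conf {s : ℕ} (w : W s) (j : ℕ) : Cfg :=
  (code (w.take j), [(List.replicate j 0, (w.drop j).map fun a => a.val + 1)])

theorem init_eq {s : ℕ} (L : Set (W s)) (k : ℕ) (w : W s) : init (mach L k) w = conf w 0 := by
  simp [init, conf, mach, code]

theorem rd_conf {s : ℕ} (w : W s) (j : ℕ) :
    (conf w j).2.map rd = [((w.drop j).map fun a => a.val + 1).headD 0] := rfl

theorem headD_of_lt {s : ℕ} (w : W s) {j : ℕ} (hj : j < w.length) :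
    ((w.drop j).map fun a => a.val + 1).headD 0 = (w[j]).val + 1 := by
  rw [List.drop_eq_getElem_cons hj]; rfl

theorem headD_of_le {s : ℕ} (w : W s) {j : ℕ} (hj : w.length ≤ j) :
    ((w.drop j).map fun a => a.val + 1).headD 0 = 0 := by
  rw [List.drop_eq_nil_of_le hj]; rfl

theorem next_shift {s : ℕ} (L : Set (W s)) {k : ℕ} (w : W s) {j : ℕ} (hj : j < w.length)
    (hk : j < k) : next L k (w.take j) ((w[j]).val + 1) = some (code (w.take (j + 1)), (0, 2)) := by
  unfold next
  have h1 : (w.take j).length < k ∧ 1 ≤ (w[j]).val + 1 ∧ (w[j]).val + 1 ≤ s + 1 := by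
    refine ⟨by rw [List.length_take]; omega, by omega, ?_⟩
    have := (w[j]).isLt
    omega
  rw [dif_pos h1]
  have h2 : (⟨(w[j]).val + 1 - 1, by have := (w[j]).isLt; omega⟩ : Fin (s + 1)) = w[j] := by
    apply Fin.ext; simp
  rw [h2, List.take_succ_eq_append_getElem hj]

theorem act_conf {s : ℕ} (w : W s) {j : ℕ} (hj : j < w.length) :
    List.zipWith act [(0, 2)] (conf w j).2 = (conf w (j + 1)).2 := by
  have h : (w.drop j).tail = w.drop (j + 1) := by simp
  simp only [conf, List.zipWith_cons_cons, List.zipWith_nil_left]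
  congr 1
  unfold act
  simp only [OfNat.ofNat_ne_zero, if_false, show (2 : ℕ) ≠ 1 by decide, if_false]
  rw [← List.map_tail, h]
  rfl

theorem step_shift {s : ℕ} (L : Set (W s)) {k : ℕ} (w : W s) {j : ℕ} (hj : j < w.length)
    (hk : j < k) : Step (mach L k) (conf w j) (conf w (j + 1)) := by
  refine ⟨(code (w.take j), [(w[j]).val + 1], code (w.take (j + 1)), [(0, 2)]), ?_, rfl, ?_, ?_⟩
  · rw [mem_mach]
    refine ⟨w.take j, (w[j]).val + 1, code (w.take (j + 1)), (0, 2), ?_, ?_,
      next_shift L w hj hk, rfl⟩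
    · rw [List.length_take]; omega
    · have := (w[j]).isLt
      omega
  · rw [rd_conf, headD_of_lt w hj]
  · rw [act_conf w hj]
    rfl

theorem reach_conf {s : ℕ} (L : Set (W s)) {k : ℕ} (w : W s) {j : ℕ} (hj : j ≤ w.length)
    (hk : j ≤ k) : Reach (mach L k) j (init (mach L k) w) (conf w j) := by
  induction j with
  | zero => exact init_eq L k w
  | succ j ih => exact ⟨conf w j, ih (by omega) (by omega), step_shift L w (by omega) (by omega)⟩

theorem step_acc {s : ℕ} {L : Set (W s)} {k : ℕ} (w : W s) {j : ℕ} (hk : j ≤ k)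
    (h : j = k ∨ w.length ≤ j) (hL : w.take j ∈ L) :
    ∃ d, Step (mach L k) (conf w j) d ∧ d.1 = 1 := by
  set x := ((w.drop j).map fun a => a.val + 1).headD 0 with hx
  refine ⟨(1, List.zipWith act [(0, 0)] (conf w j).2),
    ⟨(code (w.take j), [x], 1, [(0, 0)]), ?_, rfl, ?_, rfl⟩, rfl⟩
  · rw [mem_mach]
    refine ⟨w.take j, x, 1, (0, 0), ?_, ?_, ?_, rfl⟩
    · rw [List.length_take]; omega
    · by_cases h' : j < w.length
      · rw [hx, headD_of_lt w h']
        have := (w[j]).isLt
        omega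
      · rw [hx, headD_of_le w (by omega)]; omega
    · unfold next
      rw [dif_neg, if_pos hL]
      rintro ⟨h1, h2, h3⟩
      rcases h with h | h
      · rw [List.length_take] at h1
        by_cases h' : j < w.length
        · omega
        · rw [hx, headD_of_le w (by omega)] at h2; omega
      · rw [hx, headD_of_le w h] at h2; omega
  · rw [rd_conf]

theorem inv_step {s : ℕ} {L : Set (W s)} {k : ℕ} (hL : ∀ w, w ∈ L ↔ w.take k ∈ L) (w : W s)
    {c d : Cfg} (hs : Step (mach L k) c d)
    (hc : (c.1 = 1 ∧ w ∈ L) ∨ ∃ j, j ≤ k ∧ j ≤ w.length ∧ c = conf w j) :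
    (d.1 = 1 ∧ w ∈ L) ∨ ∃ j, j ≤ k ∧ j ≤ w.length ∧ d = conf w j := by
  obtain ⟨i, hi, h1, h2, h3⟩ := hs
  rw [mem_mach] at hi
  obtain ⟨u, x, q, a, hu, hx, hn, rfl⟩ := hi
  rcases hc with ⟨hc, -⟩ | ⟨j, hjk, hjw, rfl⟩
  · exact absurd (h1.trans hc) (code_ne_one u)
  · have e1 : u = w.take j := code_inj h1
    subst e1
    rw [rd_conf] at h2
    have e2 : x = ((w.drop j).map fun a => a.val + 1).headD 0 := by simpa using h2
    by_cases hj : j < w.length
    · rw [headD_of_lt w hj] at e2
      by_cases hk : j < k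
      · rw [e2, next_shift L w hj hk] at hn
        obtain ⟨rfl, rfl⟩ := Prod.mk.inj (Option.some.inj hn)
        right
        refine ⟨j + 1, by omega, by omega, ?_⟩
        rw [h3, act_conf w hj]
        rfl
      · have hjk' : j = k := by omega
        unfold next at hn
        rw [dif_neg (by
          rintro ⟨h, -⟩
          rw [List.length_take] at h
          omega)] at hn
        split_ifs at hn with hm
        obtain ⟨rfl, rfl⟩ := Prod.mk.inj (Option.some.inj hn)
        left
        refine ⟨by rw [h3], ?_⟩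
        rw [hL, ← hjk']
        exact hm
    · rw [headD_of_le w (by omega)] at e2
      unfold next at hn
      rw [dif_neg (by rintro ⟨-, h, -⟩; omega)] at hn
      split_ifs at hn with hm
      obtain ⟨rfl, rfl⟩ := Prod.mk.inj (Option.some.inj hn)
      left
      refine ⟨by rw [h3], ?_⟩
      rwa [List.take_of_length_le (by omega)] at hm

theorem inv_reach {s : ℕ} {L : Set (W s)} {k : ℕ} (hL : ∀ w, w ∈ L ↔ w.take k ∈ L) (w : W s)
    {m : ℕ} : ∀ {d : Cfg}, Reach (mach L k) m (init (mach L k) w) d →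
    (d.1 = 1 ∧ w ∈ L) ∨ ∃ j, j ≤ k ∧ j ≤ w.length ∧ d = conf w j := by
  induction m with
  | zero =>
    intro d hd
    have hd' : init (mach L k) w = d := hd
    right
    exact ⟨0, by omega, by omega, by rw [← hd', init_eq]⟩
  | succ m ih =>
    intro d hd
    obtain ⟨c, hc, hs⟩ := hd
    exact inv_step hL w hs (ih hc)

theorem prefixDet_sub (s : ℕ) (t : ℕ → ℕ) : PrefixDet s ⊆ DTIME s t := by
  rintro L ⟨k, hL⟩
  have key : ∀ w ∈ L, Acc (mach L k) w (k + 1) := by
    intro w hw
    have h1 : min k w.length = k ∨ w.length ≤ min k w.length := by omega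
    have h2 : w.take (min k w.length) ∈ L := by
      have : w.take (min k w.length) = w.take k := by
        rcases le_total k w.length with h | h
        · rw [min_eq_left h]
        · rw [min_eq_right h, List.take_of_length_le h, List.take_of_length_le le_rfl]
      rw [this, ← hL]
      exact hw
    obtain ⟨d, hd, hd1⟩ := step_acc w (min_le_left k w.length) h1 h2
    exact ⟨min k w.length + 1, by omega, d,
      ⟨_, reach_conf L w (min_le_right _ _) (min_le_left _ _), hd⟩, hd1⟩
  refine ⟨mach L k, Polynomial.C (k + 1), mach_wf L k, mach_det L k, ?_, ?_⟩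
  · intro w
    constructor
    · intro hw
      exact ⟨_, key w hw⟩
    · rintro ⟨n, m, -, d, hd, hd1⟩
      rcases inv_reach hL w hd with h | ⟨j, -, -, rfl⟩
      · exact h.2
      · exact absurd hd1 (code_ne_one _)
  · intro w hw
    rw [Polynomial.eval_C]
    exact key w hw

end Pool.Agent.H231R3.Sub
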