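import Mathlib
import Pool.Agent.H231R3.Sub.Local
import Pool.Agent.H231R3.Sub.Trie
import Pool.Agent.H231R3.Sub.Even

/-!
# Classification of the time bounds which are not polynomially above the identity
-/

set_option autoImplicit false

namespace Pool.Agent.H231R3.Sub

open Pool.Agent.H646R2.NT Filter

theorem eval_mono (p : Polynomial ℕ) {a b : ℕ} (h : a ≤ b) : p.eval a ≤ p.eval b := by
  rw [Polynomial.eval_eq_sum_range, Polynomial.eval_eq_sum_range]
  exact Finset.sum_le_sum fun i _ => Nat.mul_le_mul_left _ (Nat.pow_le_pow_left h i)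

theorem DTIME_sub (s : ℕ) (t : ℕ → ℕ) : DTIME s t ⊆ NTIME s t := by
  rintro L ⟨M, p, h1, -, h3⟩
  exact ⟨M, p, h1, h3⟩

theorem prefixDet_compl {s : ℕ} {L : Set (W s)} (h : L ∈ PrefixDet s) : Lᶜ ∈ PrefixDet s := by
  obtain ⟨k, hk⟩ := h
  exact ⟨k, fun w => not_congr (hk w)⟩

theorem prefixDet_sub_co (s : ℕ) (t : ℕ → ℕ) : PrefixDet s ⊆ coNTIME s t := fun _ hL =>
  DTIME_sub s t (prefixDet_sub s t (prefixDet_compl hL))

/-- The sets in `NTIME ∩ coNTIME` only depend on a bounded prefix. -/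
theorem inter_sub {s : ℕ} {t : ℕ → ℕ} (ht : ∀ p : Polynomial ℕ, ∃ n, p.eval (t n) < n) :
    NTIME s t ∩ coNTIME s t ⊆ PrefixDet s := by
  rintro L ⟨⟨M₁, p₁, hM₁, hr₁⟩, ⟨M₂, p₂, hM₂, hr₂⟩⟩
  obtain ⟨n, hn⟩ := ht (p₁ + p₂)
  rw [Polynomial.eval_add] at hn
  set k := p₁.eval (t n) + p₂.eval (t n) with hk
  have h1 : ∀ x : W s, x.length = n → x ∈ L → Acc M₁ x k := fun x hx hL =>
    acc_mono (by rw [hx]; omega) (hr₁.2 x hL)
  have h2 : ∀ x : W s, x.length = n → x ∉ L → Acc M₂ x k := fun x hx hL =>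
    acc_mono (by rw [hx]; omega) (hr₂.2 x hL)
  refine ⟨k, fun w => ?_⟩
  by_cases hw : w.length ≤ k
  · rw [List.take_of_length_le hw]
  · have hv : (w.take k).length = k := by rw [List.length_take]; omega
    set x : W s := w.take k ++ List.replicate (n - k) 0 with hx
    have hxl : x.length = n := by
      rw [hx, List.length_append, hv, List.length_replicate]; omega
    have hxk : x.take k = w.take k := by
      rw [hx, List.take_append_of_le_length (by omega), List.take_take, min_self]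
    by_cases hL : x ∈ L
    · have ha := h1 x hxl hL
      have a1 : w ∈ L := (hr₁.1 w).2 ⟨k, acc_local hM₁ ha hxk⟩
      have a2 : w.take k ∈ L := (hr₁.1 _).2 ⟨k, acc_local hM₁ ha (by
        rw [hxk, List.take_take, min_self])⟩
      exact ⟨fun _ => a2, fun _ => a1⟩
    · have ha := h2 x hxl hL
      have a1 : w ∈ Lᶜ := (hr₂.1 w).2 ⟨k, acc_local hM₂ ha hxk⟩
      have a2 : w.take k ∈ Lᶜ := (hr₂.1 _).2 ⟨k, acc_local hM₂ ha (by
        rw [hxk, List.take_take, min_self])⟩
      exact ⟨fun h => absurd h a1, fun h => absurd h a2⟩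

theorem inter_eq {s : ℕ} {t : ℕ → ℕ} (ht : ∀ p : Polynomial ℕ, ∃ n, p.eval (t n) < n) :
    NTIME s t ∩ coNTIME s t = PrefixDet s :=
  (inter_sub ht).antisymm fun _ hL =>
    ⟨DTIME_sub s t (prefixDet_sub s t hL), prefixDet_sub_co s t hL⟩

theorem closed_iff {s : ℕ} {t : ℕ → ℕ} (ht : ∀ p : Polynomial ℕ, ∃ n, p.eval (t n) < n) :
    coNTIME s t = NTIME s t ↔ NTIME s t = PrefixDet s := by
  constructor
  · intro h
    rw [← inter_eq ht, h, Set.inter_self]
  · intro h
    rw [h]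
    ext L
    change Lᶜ ∈ NTIME s t ↔ _
    rw [h]
    exact ⟨fun h' => by simpa using prefixDet_compl h', prefixDet_compl⟩

/-- Below every power of the identity, everything is determined by a bounded prefix. -/
theorem small_sub {s : ℕ} {t : ℕ → ℕ}
    (ht : ∀ p : Polynomial ℕ, ∀ᶠ n in atTop, p.eval (t n) < n) : NTIME s t ⊆ PrefixDet s := by
  rintro L ⟨M, p, hM, hr⟩
  obtain ⟨N, hN⟩ := eventually_atTop.1 (ht p)
  set K := N + ∑ n ∈ Finset.range N, p.eval (t n) with hK
  have key : ∀ w ∈ L, Acc M w K := by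
    classical
    intro w hw
    have hw1 := hr.2 w hw
    by_cases hl : w.length < N
    · refine acc_mono ?_ hw1
      have := Finset.single_le_sum (f := fun n => p.eval (t n)) (fun i _ => Nat.zero_le _)
        (Finset.mem_range.2 hl)
      omega
    · have hex : ∃ c, Acc M w c := ⟨_, hw1⟩
      set c := Nat.find hex with hc
      have hc1 : Acc M w c := Nat.find_spec hex
      have hc2 : c ≤ p.eval (t w.length) := Nat.find_min' hex hw1
      have hc3 : c < w.length := lt_of_le_of_lt hc2 (hN _ (by omega))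
      have hu : (w.take c).length = c := by rw [List.length_take]; omega
      have hu1 : Acc M (w.take c) c := acc_local hM hc1 (by rw [List.take_take, min_self])
      have hu2 : w.take c ∈ L := (hr.1 _).2 ⟨c, hu1⟩
      have hu3 := hr.2 _ hu2
      rw [hu] at hu3
      by_cases hcN : c < N
      · exact acc_mono (by omega) hc1
      · exfalso
        have h4 := hN c (by omega)
        refine Nat.find_min hex h4 (acc_local hM hu3 ?_)
        rw [List.take_take, min_eq_left h4.le]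
  refine ⟨K, fun w => ⟨fun hw => ?_, fun hw => ?_⟩⟩
  · exact (hr.1 _).2 ⟨K, acc_local hM (key w hw) (by rw [List.take_take, min_self])⟩
  · exact (hr.1 _).2 ⟨K, acc_local hM (key _ hw) (by rw [List.take_take, min_self])⟩

theorem ev_ex {t : ℕ → ℕ} (ht : ∀ p : Polynomial ℕ, ∀ᶠ n in atTop, p.eval (t n) < n) :
    ∀ p : Polynomial ℕ, ∃ n, p.eval (t n) < n := fun p => (ht p).exists

/-- A nontrivial set of lengths. -/
theorem not_prefixDet {s : ℕ} {J : Set ℕ} (hJ : J.Infinite) (hJ' : Jᶜ.Infinite) :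
    {w : W s | w.length ∈ J} ∉ PrefixDet s := by
  rintro ⟨k, hk⟩
  obtain ⟨n, hn, hkn⟩ := hJ.exists_gt k
  obtain ⟨m, hm, hkm⟩ := hJ'.exists_gt k
  have a1 : (List.replicate n 0 : W s) ∈ {w : W s | w.length ∈ J} := by
    simpa using hn
  have a2 := (hk _).1 a1
  have a3 : (List.replicate m 0 : W s) ∈ {w : W s | w.length ∈ J} := by
    rw [hk]
    rw [List.take_replicate] at a2 ⊢
    rw [min_eq_left (by omega : k ≤ n)] at a2
    rw [min_eq_left (by omega : k ≤ m)]
    exact a2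
  have a4 : m ∈ J := by simpa using a3
  exact hm a4

/-- Lengths at which the time bound suffices to read the input. -/
theorem compl_infinite {t : ℕ → ℕ} (ht : ∀ p : Polynomial ℕ, ∃ n, p.eval (t n) < n)
    (p : Polynomial ℕ) {J : Set ℕ} (hJt : ∀ n ∈ J, n ≤ p.eval (t n)) : Jᶜ.Infinite := by
  refine Set.infinite_of_not_bddAbove ?_
  rintro ⟨k, hk⟩
  obtain ⟨m, hm⟩ := ht (p + Polynomial.C k)
  rw [Polynomial.eval_add, Polynomial.eval_C] at hm
  have h1 : m ∈ Jᶜ := fun h => by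
    have := hJt m h
    omega
  have h2 := hk h1
  omega

theorem mem_of_id {s : ℕ} {t : ℕ → ℕ} (p : Polynomial ℕ) {L : Set (W s)}
    (hL : L ∈ NTIME s id) (hLt : ∀ w ∈ L, w.length ≤ p.eval (t w.length)) : L ∈ NTIME s t := by
  obtain ⟨M, q, hM, hr⟩ := hL
  refine ⟨M, q.comp p, hM, hr.1, fun w hw => acc_mono ?_ (hr.2 w hw)⟩
  rw [Polynomial.eval_comp]
  exact eval_mono q (hLt _ hw)

theorem mem_of_id' {s : ℕ} {t : ℕ → ℕ} (p : Polynomial ℕ) {L : Set (W s)}
    (hL : L ∈ DTIME s id) (hLt : ∀ w ∈ L, w.length ≤ p.eval (t w.length)) : L ∈ DTIME s t := by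
  obtain ⟨M, q, hM, hd, hr⟩ := hL
  refine ⟨M, q.comp p, hM, hd, hr.1, fun w hw => acc_mono ?_ (hr.2 w hw)⟩
  rw [Polynomial.eval_comp]
  exact eval_mono q (hLt _ hw)

/-- Above the identity one may replace `t` by `max n (t n)`. -/
theorem above {s : ℕ} {t : ℕ → ℕ} {p : Polynomial ℕ} (hp : ∀ n, n ≤ p.eval (t n)) :
    NTIME s t = NTIME s (fun n => max n (t n)) := by
  ext L
  constructor
  · rintro ⟨M, q, hM, hr⟩
    exact ⟨M, q, hM, hr.1, fun w hw => acc_mono (eval_mono q (le_max_right _ _)) (hr.2 w hw)⟩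
  · rintro ⟨M, q, hM, hr⟩
    refine ⟨M, q.comp (p + Polynomial.X), hM, hr.1, fun w hw => acc_mono ?_ (hr.2 w hw)⟩
    rw [Polynomial.eval_comp, Polynomial.eval_add, Polynomial.eval_X]
    refine eval_mono q ?_
    have := hp w.length
    change max w.length (t w.length) ≤ _
    omega

theorem final_below (s : ℕ) (t : ℕ → ℕ) (ht : ∀ p : Polynomial ℕ, ∃ n, p.eval (t n) < n) :
    NTIME s t ∩ coNTIME s t = PrefixDet s ∧
      (coNTIME s t = NTIME s t ↔ NTIME s t = PrefixDet s) ∧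
      (coNTIME s t = NTIME s t → NTIME s t = DTIME s t) ∧
      ((∀ p : Polynomial ℕ, ∀ᶠ n in atTop, p.eval (t n) < n) → coNTIME s t = NTIME s t) ∧
      ((∀ p : Polynomial ℕ, {w : W s | w.length ≤ p.eval (t w.length)} ∈ NTIME s t) →
        (coNTIME s t = NTIME s t ↔ ∀ p : Polynomial ℕ, ∀ᶠ n in atTop, p.eval (t n) < n)) ∧
      (∀ (p : Polynomial ℕ) (J : Set ℕ), J.Infinite → (∀ n ∈ J, n ≤ p.eval (t n)) →
        {w : W s | w.length ∈ J} ∈ DTIME s id →
          {w : W s | w.length ∈ J} ∈ DTIME s t ∧ {w : W s | w.length ∈ J}ᶜ ∉ NTIME s t) := by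
  have hsm : (∀ p : Polynomial ℕ, ∀ᶠ n in atTop, p.eval (t n) < n) →
      coNTIME s t = NTIME s t := fun h => (closed_iff ht).2
    ((small_sub h).antisymm fun _ hL => DTIME_sub s t (prefixDet_sub s t hL))
  refine ⟨inter_eq ht, closed_iff ht, ?_, hsm, ?_, ?_⟩
  · intro h
    refine Set.Subset.antisymm ?_ (DTIME_sub s t)
    rw [(closed_iff ht).1 h]
    exact prefixDet_sub s t
  · intro hreas
    refine ⟨fun hcl p => ?_, hsm⟩
    by_contra hcon
    have hinf : {n | n ≤ p.eval (t n)}.Infinite := by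
      rw [← Nat.frequently_atTop_iff_infinite]
      rw [not_eventually] at hcon
      exact hcon.mono fun n hn => not_lt.1 hn
    refine not_prefixDet (s := s) hinf (compl_infinite ht p fun n hn => hn) ?_
    rw [← (closed_iff ht).1 hcl]
    exact hreas p
  · intro p J hJ hJt hL
    have h1 : {w : W s | w.length ∈ J} ∈ DTIME s t := mem_of_id' p hL fun w hw => hJt _ hw
    refine ⟨h1, fun h2 => ?_⟩
    exact not_prefixDet (s := s) hJ (compl_infinite ht p hJt) (inter_sub ht ⟨DTIME_sub s t h1, h2⟩)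

theorem final_above (s : ℕ) (t : ℕ → ℕ) (ht : ∃ p : Polynomial ℕ, ∀ n, n ≤ p.eval (t n)) :
    coNTIME s t = NTIME s t ↔
      coNTIME s (fun n => max n (t n)) = NTIME s (fun n => max n (t n)) := by
  obtain ⟨p, hp⟩ := ht
  have h1 := above (s := s) hp
  have h2 : coNTIME s t = coNTIME s (fun n => max n (t n)) := by
    ext L
    change Lᶜ ∈ NTIME s t ↔ Lᶜ ∈ NTIME s (fun n => max n (t n))
    rw [h1]
  rw [h2, h1]

theorem final_even (s : ℕ) (t : ℕ → ℕ) (ht : ∀ p : Polynomial ℕ, ∃ n, p.eval (t n) < n)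
    (he : ∃ p : Polynomial ℕ, ∀ n, Even n → n ≤ p.eval (t n)) :
    {w : W s | Even w.length} ∈ DTIME s t ∧ {w : W s | Even w.length}ᶜ ∉ NTIME s t := by
  obtain ⟨p, hp⟩ := he
  have hJ : {n : ℕ | Even n}.Infinite := by
    refine Set.infinite_of_not_bddAbove ?_
    rintro ⟨k, hk⟩
    have h : 2 * (k + 1) ∈ {n : ℕ | Even n} := ⟨k + 1, by ring⟩
    have := hk h
    omega
  have hid : {w : W s | w.length ∈ {n : ℕ | Even n}} ∈ DTIME s id := by
    have h := even_mem s
    have h2 : {n : ℕ | n % 2 = 0} = {n : ℕ | Even n} := by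
      ext n; exact Nat.even_iff.symm
    rwa [h2] at h
  exact (final_below s t ht).2.2.2.2.2 p _ hJ (fun n hn => hp n hn) hid

end Pool.Agent.H231R3.Sub
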