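import Mathlib
import Pool.Agent.H231R3.Sub.Main
import Pool.Agent.H646R2.NT.Acc

/-!
# A computable time bound with `t n = n` infinitely often and `NTIME(Pol t)` trivial
-/

set_option autoImplicit false

namespace Pool.Agent.H231R3.Sub

open Pool.Agent.H646R2.NT Filter Encodable Nat.Partrec Pool.Agent.Helper446.RE

/-- Decoding a pair of a machine and a number. -/
def dec (e : ℕ) : Mach × ℕ := ((Encodable.decode e : Option (Mach × ℕ))).getD ((0, []), 0)

theorem dec_encode (x : Mach × ℕ) : dec (Encodable.encode x) = x := by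
  unfold dec
  rw [Encodable.encodek]
  rfl

/-- `e` would be violated at the length `n`. -/
def badB (s e n : ℕ) : Bool :=
  (words s n).any fun w => accB (dec e).1 w (PP (dec e).2 n) &&
    !(accB (dec e).1 w ((n - 2 - PP (dec e).2 0) + PP (dec e).2 0))

/-- The new indices to be killed. -/
def FF (s n : ℕ) (K : List ℕ) (i : ℕ) : List ℕ :=
  (List.range (i + 1)).filter fun e => !(decide (e ∈ K)) && badB s e n

/-- One step of the construction. -/
def stp (s n : ℕ) (σ : List ℕ × ℕ × Bool) : List ℕ × ℕ × Bool :=
  bif σ.2.2 then (σ.1, σ.2.1, false)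
  else bif decide (FF s n σ.1 σ.2.1 = []) then (σ.1, σ.2.1 + 1, true)
  else (FF s n σ.1 σ.2.1 ++ σ.1, σ.2.1, false)

/-- The state of the construction. -/
def st (s : ℕ) : ℕ → List ℕ × ℕ × Bool
  | 0 => ([], 0, false)
  | n + 1 => stp s n (st s n)

/-- `n` is a length at which the input can be read. -/
def inJ (s n : ℕ) : Bool := (st s (n + 1)).2.2

/-- The time bound. -/
def tt (s n : ℕ) : ℕ := bif inJ s n then n else 0

/-! ### Computability -/

section comp

variable {α : Type*} [Primcodable α]

@[fun_prop] theorem c_dec {f : α → ℕ} (hf : Computable f) : Computable fun x => dec (f x) := by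
  have h : Computable fun x => (Encodable.decode (f x) : Option (Mach × ℕ)) :=
    Computable.decode.comp hf
  exact Computable.option_getD h (Computable.const _)

theorem c_badB (s : ℕ) {f g : α → ℕ} (hf : Computable f) (hg : Computable g) :
    Computable fun x => badB s (f x) (g x) := by
  unfold badB
  refine q_any (l := fun x => words s (g x)) (f := fun x w =>
    accB (dec (f x)).1 w (PP (dec (f x)).2 (g x)) &&
      !(accB (dec (f x)).1 w ((g x - 2 - PP (dec (f x)).2 0) + PP (dec (f x)).2 0)))
      (by fun_prop) ?_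
  have h1 : Computable fun p : α × W s => f p.1 := hf.comp Computable.fst
  have h2 : Computable fun p : α × W s => g p.1 := hg.comp Computable.fst
  exact cand (c_accB (by fun_prop) (by fun_prop) (by fun_prop))
    (cnot (c_accB (by fun_prop) (by fun_prop) (by fun_prop)))

theorem c_FF (s : ℕ) {f : α → ℕ} {g : α → List ℕ} {h : α → ℕ} (hf : Computable f)
    (hg : Computable g) (hh : Computable h) : Computable fun x => FF s (f x) (g x) (h x) := by
  unfold FF
  refine q_filter (l := fun x => List.range (h x + 1)) (f := fun x e =>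
    !(decide (e ∈ g x)) && badB s e (f x)) (by fun_prop) ?_
  have h1 : Computable fun p : α × ℕ => f p.1 := hf.comp Computable.fst
  have h2 : Computable fun p : α × ℕ => g p.1 := hg.comp Computable.fst
  exact cand (by fun_prop) (c_badB s (by fun_prop) h1)

theorem c_st (s : ℕ) : Computable (st s) := by
  have hF : Computable fun y : ℕ × (ℕ × (List ℕ × ℕ × Bool)) =>
      FF s y.2.1 y.2.2.1 y.2.2.2.1 := c_FF s (by fun_prop) (by fun_prop) (by fun_prop)
  have h1 : Computable fun y : ℕ × (ℕ × (List ℕ × ℕ × Bool)) => stp s y.2.1 y.2.2 := by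
    unfold stp
    exact ccond (by fun_prop) (by fun_prop) (ccond (q_eq hF (cconst [])) (by fun_prop)
      (cpair (cappend hF (by fun_prop)) (by fun_prop)))
  have h := Computable.nat_rec (f := fun n : ℕ => n)
    (g := fun _ : ℕ => (([], 0, false) : List ℕ × ℕ × Bool))
    (h := fun (_ : ℕ) (y : ℕ × (List ℕ × ℕ × Bool)) => stp s y.1 y.2) Computable.id
    (Computable.const _) h1
  refine h.of_eq fun n => ?_
  induction n with
  | zero => rfl
  | succ n ih => simp only [st]; rw [← ih]

theorem c_tt (s : ℕ) : Computable (tt s) := by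
  have h1 : Computable fun n : ℕ => (st s (n + 1)).2.2 := by
    have h2 : Computable fun n : ℕ => st s (n + 1) := (c_st s).comp Computable.succ
    fun_prop
  unfold tt inJ
  exact ccond h1 Computable.id (Computable.const 0)

end comp

/-! ### The construction -/

theorem inJ_true {s n : ℕ} (h : inJ s n = true) : (st s n).2.2 = false ∧
    FF s n (st s n).1 (st s n).2.1 = [] ∧ (st s (n + 1)).2.1 = (st s n).2.1 + 1 := by
  unfold inJ at h
  rw [st, stp] at h
  rw [st, stp]
  cases hb : (st s n).2.2
  · rw [hb] at h
    simp only [cond_false] at h ⊢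
    by_cases hF : FF s n (st s n).1 (st s n).2.1 = []
    · simp [hF]
    · simp [hF] at h
  · rw [hb] at h
    simp at h

theorem inJ_false {s n : ℕ} (h : inJ s n = false) : (st s n).2.2 = true ∨
    (FF s n (st s n).1 (st s n).2.1 ≠ [] ∧
      st s (n + 1) = (FF s n (st s n).1 (st s n).2.1 ++ (st s n).1, (st s n).2.1, false)) := by
  unfold inJ at h
  rw [st, stp] at h
  rw [st, stp]
  cases hb : (st s n).2.2
  · rw [hb] at h
    simp only [cond_false] at h ⊢
    by_cases hF : FF s n (st s n).1 (st s n).2.1 = []
    · simp [hF] at h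
    · right
      simp [hF]
  · left; rfl

theorem not_both {s n : ℕ} (h : inJ s n = true) : inJ s (n + 1) = false := by
  by_contra hcon
  have h2 := (inJ_true (by simpa using hcon : inJ s (n + 1) = true)).1
  unfold inJ at h
  rw [h] at h2
  exact absurd h2 (by simp)

theorem idx_mono (s : ℕ) : Monotone fun n => (st s n).2.1 := by
  refine monotone_nat_of_le_succ fun n => ?_
  change (st s n).2.1 ≤ (st s (n + 1)).2.1
  rw [st, stp]
  cases (st s n).2.2
  · simp only [cond_false]
    by_cases hF : FF s n (st s n).1 (st s n).2.1 = []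
    · simp [hF]
    · simp [hF]
  · simp

theorem mem_FF {s n e i : ℕ} {K : List ℕ} : e ∈ FF s n K i ↔ e ≤ i ∧ e ∉ K ∧ badB s e n = true := by
  unfold FF
  simp only [List.mem_filter, List.mem_range, Bool.and_eq_true, Bool.not_eq_true',
    decide_eq_false_iff_not, Nat.lt_succ_iff]

theorem killed {s e : ℕ} : ∀ n, e ∈ (st s n).1 → ∃ m, inJ s m = false ∧ badB s e m = true := by
  intro n
  induction n with
  | zero => intro h; simp [st] at h
  | succ n ih =>
    intro h
    cases hJ : inJ s n with
    | true =>
      obtain ⟨h1, h2, -⟩ := inJ_true hJ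
      rw [st, stp, h1] at h
      simp only [cond_false, h2, decide_true, cond_true] at h
      exact ih h
    | false =>
      rcases inJ_false hJ with h1 | ⟨-, h1⟩
      · rw [st, stp, h1] at h
        simp only [cond_true] at h
        exact ih h
      · rw [h1] at h
        simp only [List.mem_append] at h
        rcases h with h | h
        · exact ⟨n, hJ, (mem_FF.1 h).2.2⟩
        · exact ih h

theorem J_inf (s : ℕ) (N : ℕ) : ∃ n, N ≤ n ∧ inJ s n = true := by
  by_contra hcon
  push Not at hcon
  have hJ : ∀ n, N ≤ n → inJ s n = false := fun n hn => by simpa using hcon n hn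
  have hb : ∀ n, N + 1 ≤ n → (st s n).2.2 = false := by
    intro n hn
    obtain ⟨m, rfl⟩ : ∃ m, n = m + 1 := ⟨n - 1, by omega⟩
    exact hJ m (by omega)
  have hst : ∀ n, N + 1 ≤ n → FF s n (st s n).1 (st s n).2.1 ≠ [] ∧
      st s (n + 1) = (FF s n (st s n).1 (st s n).2.1 ++ (st s n).1, (st s n).2.1, false) := by
    intro n hn
    rcases inJ_false (hJ n (by omega)) with h | h
    · rw [hb n hn] at h; exact absurd h (by simp)
    · exact h
  set i := (st s (N + 1)).2.1 with hi
  have hidx : ∀ d, (st s (N + 1 + d)).2.1 = i := by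
    intro d
    induction d with
    | zero => rfl
    | succ d ih =>
      have h := (hst (N + 1 + d) (by omega)).2
      change (st s (N + 1 + d + 1)).2.1 = i
      rw [h, ih]
  have hmeas : ∀ d, ((Finset.range (i + 1)).filter fun e => e ∉ (st s (N + 1 + d)).1).card + d ≤
      i + 1 := by
    intro d
    induction d with
    | zero =>
      have := Finset.card_filter_le (Finset.range (i + 1)) fun e => e ∉ (st s (N + 1 + 0)).1
      rw [Finset.card_range] at this
      omega
    | succ d ih =>
      have h := hst (N + 1 + d) (by omega)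
      obtain ⟨e, he⟩ := List.exists_mem_of_ne_nil _ h.1
      have he2 := mem_FF.1 he
      rw [hidx d] at he2
      have hlt : ((Finset.range (i + 1)).filter fun e => e ∉ (st s (N + 1 + (d + 1))).1).card <
          ((Finset.range (i + 1)).filter fun e => e ∉ (st s (N + 1 + d)).1).card := by
        refine Finset.card_lt_card ⟨?_, ?_⟩
        · intro x hx
          rw [Finset.mem_filter] at hx ⊢
          refine ⟨hx.1, fun hx2 => hx.2 ?_⟩
          change x ∈ (st s (N + 1 + d + 1)).1
          rw [h.2]
          exact List.mem_append_right _ hx2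
        · intro hsub
          have h1 : e ∈ (Finset.range (i + 1)).filter fun e => e ∉ (st s (N + 1 + d)).1 := by
            rw [Finset.mem_filter, Finset.mem_range]
            exact ⟨by omega, he2.2.1⟩
          have h2 := (Finset.mem_filter.1 (hsub h1)).2
          apply h2
          change e ∈ (st s (N + 1 + d + 1)).1
          rw [h.2]
          exact List.mem_append_left _ he
      omega
  have := hmeas (i + 2)
  omega

theorem idx_unbdd (s e : ℕ) : ∃ N, ∀ n, N ≤ n → e ≤ (st s n).2.1 := by
  induction e with
  | zero => exact ⟨0, fun n _ => Nat.zero_le _⟩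
  | succ e ih =>
    obtain ⟨N, hN⟩ := ih
    obtain ⟨m, hm, hJ⟩ := J_inf s N
    refine ⟨m + 1, fun n hn => ?_⟩
    have h1 := (inJ_true hJ).2.2
    have h2 := hN m hm
    have h3 : (st s (m + 1)).2.1 ≤ (st s n).2.1 := idx_mono s hn
    omega

theorem prefix_of_bound {s : ℕ} {M : Mach} {L : Set (W s)} (hM : WF M)
    (hr : ∀ w, w ∈ L ↔ ∃ n, Acc M w n) {K : ℕ} (key : ∀ w ∈ L, Acc M w K) : L ∈ PrefixDet s := by
  refine ⟨K, fun w => ⟨fun hw => ?_, fun hw => ?_⟩⟩
  · exact (hr _).2 ⟨K, acc_local hM (key w hw) (by rw [List.take_take, min_self])⟩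
  · exact (hr _).2 ⟨K, acc_local hM (key _ hw) (by rw [List.take_take, min_self])⟩

theorem tt_false {s n : ℕ} (h : inJ s n = false) : tt s n = 0 := by unfold tt; rw [h]; rfl

theorem tt_true {s n : ℕ} (h : inJ s n = true) : tt s n = n := by unfold tt; rw [h]; rfl

theorem tt_sub (s : ℕ) : NTIME s (tt s) ⊆ PrefixDet s := by
  rintro L ⟨M, p, hM, hr⟩
  obtain ⟨c, hc⟩ := exists_PP p
  have hr2 : ∀ w ∈ L, Acc M w (PP c (tt s w.length)) := fun w hw => acc_mono (hc _) (hr.2 w hw)
  set e := Encodable.encode ((M, c) : Mach × ℕ) with he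
  have hdec : dec e = (M, c) := dec_encode _
  have hbad : ∀ n, badB s e n = true ↔ ∃ w : W s, w.length = n ∧ Acc M w (PP c n) ∧
      ¬ Acc M w ((n - 2 - PP c 0) + PP c 0) := by
    intro n
    unfold badB
    rw [hdec]
    simp only [List.any_eq_true, mem_words, Bool.and_eq_true, Bool.not_eq_true', accB_iff,
      ← Bool.not_eq_true]
  have hnk : ∀ n, e ∉ (st s n).1 := by
    intro n h
    obtain ⟨m, hm1, hm2⟩ := killed n h
    obtain ⟨w, hw1, hw2, hw3⟩ := (hbad m).1 hm2
    apply hw3
    have h1 := hr2 w ((hr.1 w).2 ⟨_, hw2⟩)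
    rw [hw1, tt_false hm1] at h1
    exact acc_mono (by omega) h1
  obtain ⟨N, hN⟩ := idx_unbdd s e
  have hJ : ∀ n, N ≤ n → inJ s n = true → ∀ w : W s, w.length = n → Acc M w (PP c n) →
      Acc M w ((n - 2 - PP c 0) + PP c 0) := by
    intro n hn hJn w hw hacc
    by_contra hcon
    have h1 : e ∈ FF s n (st s n).1 (st s n).2.1 :=
      mem_FF.2 ⟨hN n hn, hnk n, (hbad n).2 ⟨w, hw, hacc, hcon⟩⟩
    rw [(inJ_true hJn).2.1] at h1
    exact absurd h1 (by simp)
  set K := PP c 0 + ∑ n ∈ Finset.range (N + 1), PP c (tt s n) with hK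
  refine prefix_of_bound hM hr.1 (K := K) fun w hw => ?_
  have hacc := hr2 w hw
  by_cases hl : w.length < N + 1
  · refine acc_mono ?_ hacc
    have := Finset.single_le_sum (f := fun n => PP c (tt s n)) (fun i _ => Nat.zero_le _)
      (Finset.mem_range.2 hl)
    omega
  · refine acc_mono (show PP c 0 ≤ K by omega) ?_
    cases hJn : inJ s w.length with
    | false => rwa [tt_false hJn] at hacc
    | true =>
      rw [tt_true hJn] at hacc
      have h1 := hJ w.length (by omega) hJn w rfl hacc
      by_cases h2 : w.length - 2 ≤ PP c 0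
      · exact acc_mono (by omega) h1
      · set w' : W s := w.take (w.length - 1) with hw'
        have hlen : w'.length = w.length - 1 := by rw [hw', List.length_take]; omega
        have hJ' : inJ s w'.length = false := by
          have h3 := (inJ_true hJn).1
          unfold inJ
          rw [hlen, show w.length - 1 + 1 = w.length by omega]
          exact h3
        have h4 : Acc M w' (w.length - 2) := by
          refine acc_local hM (acc_mono (by omega) h1) ?_
          rw [hw', List.take_take, min_eq_left (by omega)]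
        have h5 := hr2 w' ((hr.1 _).2 ⟨_, h4⟩)
        rw [tt_false hJ'] at h5
        refine acc_local hM h5 ?_
        rw [hw', List.take_take, min_eq_left (by omega)]

theorem tt_small (s : ℕ) (p : Polynomial ℕ) : ∃ n, p.eval (tt s n) < n := by
  set k := p.eval 0 with hk
  cases h : inJ s (k + 1) with
  | false => exact ⟨k + 1, by rw [tt_false h]; omega⟩
  | true => exact ⟨k + 2, by rw [tt_false (not_both h)]; omega⟩

/-- There is a computable time bound `t` with values in `{0, n}`, equal to `n` for infinitely many
`n`, which is not polynomially above the identity, and for which `NTIME(Pol t)` is closed under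
complementation. -/
theorem immune (s : ℕ) : ∃ t : ℕ → ℕ, Computable t ∧ (∀ n, t n = 0 ∨ t n = n) ∧
    {n | t n = n}.Infinite ∧ (∀ p : Polynomial ℕ, ∃ n, p.eval (t n) < n) ∧
      coNTIME s t = NTIME s t := by
  refine ⟨tt s, c_tt s, fun n => ?_, ?_, tt_small s, ?_⟩
  · cases h : inJ s n with
    | false => exact Or.inl (tt_false h)
    | true => exact Or.inr (tt_true h)
  · rw [← Nat.frequently_atTop_iff_infinite, frequently_atTop]
    intro N
    obtain ⟨n, hn, h⟩ := J_inf s N
    exact ⟨n, hn, tt_true h⟩
  · exact (closed_iff (tt_small s)).2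
      ((tt_sub s).antisymm fun _ hL => DTIME_sub s _ (prefixDet_sub s _ hL))

end Pool.Agent.H231R3.Sub
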